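import Pool.Agent.W602.GT.Uni
import Pool.Agent.TH710.WH.Defs2

/-!
# Rationally connected varieties are uniruled

The generic point of a rationally connected variety of positive dimension lies on a rational curve,
which is not constant, defined over a finitely generated field.
-/

set_option autoImplicit false

open FF MvPolynomial Pool.Agent.W602.GT Pool.Agent.TH710.WH

namespace Run7.h366.RC

variable {k : Type} [Field k] {n : ℕ} {K : Type} [Field K] [Algebra k K]

/-- points of the variety outside of a hypersurface -/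
theorem exists_point [IsAlgClosed k] {y : Fin (n + 1) → K} {i0 : Fin (n + 1)} (hi0 : y i0 ≠ 0)
    {G : MvPolynomial (Fin (n + 1)) k} (hG : aeval y G ≠ 0) :
    ∃ a ∈ VarPts k y, a i0 ≠ 0 ∧ aeval a G ≠ 0 := by
  obtain ⟨z0, hz1, hz2⟩ := specialise y (G * X i0) (by
    rw [map_mul, aeval_X]
    exact mul_ne_zero hG hi0)
  rw [map_mul, aeval_X] at hz1
  exact ⟨z0, ⟨fun h => right_ne_zero_of_mul hz1 (by rw [h]; rfl), fun F _ hF => hz2 F hF⟩,
    right_ne_zero_of_mul hz1, left_ne_zero_of_mul hz1⟩

/-- **Rationally connected varieties of positive dimension are uniruled.** -/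
theorem uniruled_of_rc [IsAlgClosed k] {y : Fin (n + 1) → K} (hy0 : y ≠ 0)
    (hgen : coords k y = ⊤) (hpos : ¬ Algebra.IsAlgebraic k K) (h : RationallyConnected k y) :
    Uniruled k K := by
  classical
  obtain ⟨Ω, iΩ, aΩ, f, hΩ, h1, h2⟩ := h
  obtain ⟨i0, hi0⟩ : ∃ i0, y i0 ≠ 0 := by
    by_contra hcon
    push Not at hcon
    exact hy0 (funext hcon)
  -- the field generated by the coefficients
  let S : Finset Ω := Finset.univ.biUnion fun i => (f i).coeffs
  let M : IntermediateField k Ω := IntermediateField.adjoin k (S : Set Ω)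
  have hess : Algebra.EssFiniteType k M :=
    IntermediateField.essFiniteType_iff.2 (IntermediateField.fg_adjoin_finset S)
  have hlift : ∀ i, ∃ g : Polynomial M, g.map (algebraMap M Ω) = f i := by
    intro i
    rw [← Polynomial.mem_lifts, Polynomial.lifts_iff_coeff_lifts]
    intro e
    by_cases h0 : (f i).coeff e = 0
    · exact ⟨0, by rw [map_zero, h0]⟩
    · refine ⟨⟨(f i).coeff e, IntermediateField.subset_adjoin k _ ?_⟩, rfl⟩
      exact Finset.mem_coe.2 (Finset.mem_biUnion.2 ⟨i, Finset.mem_univ i,
        Polynomial.coeff_mem_coeffs h0⟩)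
  choose g hg using hlift
  let ι : Polynomial M →ₐ[k] Polynomial Ω := Polynomial.mapAlgHom M.val
  have hι : ∀ i, ι (g i) = f i := fun i => hg i
  have hιinj : Function.Injective ι := Polynomial.map_injective _ (algebraMap M Ω).injective
  have hgf : ∀ G : MvPolynomial (Fin (n + 1)) k, aeval g G = 0 ↔ aeval f G = 0 := by
    intro G
    have h3 : ι (aeval g G) = aeval f G := by
      rw [← AlgHom.comp_apply, comp_aeval]
      congr 2
      funext i
      exact hι i
    rw [← h3, map_eq_zero_iff _ hιinj]
  let y' : Fin (n + 1) → RatFunc M := fun i => algebraMap (Polynomial M) (RatFunc M) (g i)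
  have hinj : Function.Injective (algebraMap (Polynomial M) (RatFunc M)) :=
    RatFunc.algebraMap_injective M
  have hy' : ∀ G : MvPolynomial (Fin (n + 1)) k, val y' G = 0 ↔ aeval g G = 0 := by
    intro G
    have h3 : (IsScalarTower.toAlgHom k (Polynomial M) (RatFunc M)) (aeval g G) = val y' G := by
      rw [← AlgHom.comp_apply, comp_aeval]
      rfl
    rw [← h3]
    exact map_eq_zero_iff _ hinj
  -- points
  obtain ⟨a, ha, hai, -⟩ := exists_point (k := k) hi0 (G := 1) (by rw [map_one]; exact one_ne_zero)
  have hiff : ∀ G : MvPolynomial (Fin (n + 1)) k, IsForm G → (val y G = 0 ↔ val y' G = 0) := by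
    intro G hG
    rw [hy', hgf]
    refine ⟨h1 G hG, fun h3 => ?_⟩
    by_contra h4
    obtain ⟨b, hb, -, hbG⟩ := exists_point (k := k) hi0 (G := G) h4
    have h5 : aeval (Sum.elim (fun i => (f i).eval 0) (fun i => (f i).eval 1)) (rename Sum.inl G) =
        0 := by
      rw [aeval_rename]
      have h6 : (Sum.elim (fun i => (f i).eval 0) (fun i => (f i).eval 1) :
          Fin (n + 1) ⊕ Fin (n + 1) → Ω) ∘ Sum.inl = fun i => (f i).eval 0 := rfl
      rw [h6]
      have h7 := MvPolynomial.comp_aeval_apply (f := f)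
        ((Polynomial.aeval (0 : Ω) : Polynomial Ω →ₐ[Ω] Ω).restrictScalars k) G
      rw [h3, map_zero] at h7
      exact h7.symm
    have h6 := h2 _ h5 b hb a ha
    rw [aeval_rename] at h6
    exact hbG h6
  have h0' : y' i0 ≠ 0 := by
    intro h3
    apply hi0
    have h4 := (hiff (X i0) ⟨1, isHomogeneous_X k i0⟩).2 (by
      change aeval y' (X i0) = 0
      rw [aeval_X, h3])
    change aeval y (X i0) = 0 at h4
    rwa [aeval_X] at h4
  obtain ⟨φ, hφ⟩ := exists_embedding (L := RatFunc M) hi0 h0' hgen hiff
  by_cases hcon : ∃ j0, y' j0 / y' i0 ∉ Set.range (algebraMap M (RatFunc M))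
  · obtain ⟨j0, hj0⟩ := hcon
    exact ⟨M, inferInstance, inferInstance, hess, φ, y j0 / y i0, by rw [hφ]; exact hj0⟩
  exfalso
  push Not at hcon
  choose c hc using hcon
  have hfc : ∀ j, f j = Polynomial.C ((c j : M) : Ω) * f i0 := by
    intro j
    have h3 : y' j = algebraMap M (RatFunc M) (c j) * y' i0 := by
      rw [hc j, div_mul_cancel₀ _ h0']
    have h4 : g j = Polynomial.C (c j) * g i0 := by
      apply hinj
      rw [map_mul]
      have h5 : algebraMap (Polynomial M) (RatFunc M) (Polynomial.C (c j)) =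
          algebraMap M (RatFunc M) (c j) := by
        rw [IsScalarTower.algebraMap_apply M (Polynomial M) (RatFunc M)]
        rfl
      rw [h5]
      exact h3
    rw [← hg j, h4, Polynomial.map_mul, Polynomial.map_C, hg i0]
    rfl
  have hprop : ∀ b ∈ VarPts k y, ∀ j, a i0 * b j = a j * b i0 := by
    intro b hb j
    have h3 := h2 (X (Sum.inl i0) * X (Sum.inr j) - X (Sum.inl j) * X (Sum.inr i0)) (by
      simp only [map_sub, map_mul, aeval_X, Sum.elim_inl, Sum.elim_inr]
      rw [hfc j]
      simp only [Polynomial.eval_mul, Polynomial.eval_C]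
      ring) a ha b hb
    simp only [map_sub, map_mul, aeval_X, Sum.elim_inl, Sum.elim_inr] at h3
    exact sub_eq_zero.1 h3
  have hratio : ∀ j, y j = algebraMap k K (a j / a i0) * y i0 := by
    intro j
    by_contra h3
    have h4 : aeval y (C (a i0) * X j - C (a j) * X i0 : MvPolynomial (Fin (n + 1)) k) ≠ 0 := by
      intro h5
      apply h3
      simp only [map_sub, map_mul, aeval_X, aeval_C] at h5
      have h6 : algebraMap k K (a i0) ≠ 0 := (map_ne_zero _).2 hai
      rw [map_div₀]
      field_simp
      linear_combination h5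
    obtain ⟨b, hb, -, hbG⟩ := exists_point (k := k) hi0 h4
    apply hbG
    simp only [map_sub, map_mul, aeval_X, aeval_C, Algebra.algebraMap_self, RingHom.id_apply]
    exact sub_eq_zero.2 (hprop b hb j)
  apply hpos
  have hbot : coords k y ≤ ⊥ := by
    unfold coords
    rw [IntermediateField.adjoin_le_iff]
    rintro _ ⟨i, j, hj, rfl⟩
    rw [SetLike.mem_coe, IntermediateField.mem_bot]
    refine ⟨(a i / a i0) / (a j / a i0), ?_⟩
    rw [hratio i, hratio j, mul_div_mul_right _ _ hi0, map_div₀]
  rw [hgen] at hbot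
  refine ⟨fun z => ?_⟩
  have h3 : z ∈ (⊥ : IntermediateField k K) := hbot IntermediateField.mem_top
  obtain ⟨c, hc⟩ := IntermediateField.mem_bot.1 h3
  rw [← hc]
  exact isAlgebraic_algebraMap c

end Run7.h366.RC
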