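import Pool.Agent.R882.UB
import Pool.Agent.R882.COver
import Pool.Agent.Run7.h366.RCa

/-!
# Rationally connected varieties have geometric genus zero

The transport of derivations and places is from `Pool/Agent/Run7/h821/FibG.lean` (helper821).
-/

set_option autoImplicit false
set_option linter.overlappingInstances false
set_option linter.unusedSectionVars false
set_option linter.unusedVariables false

open FF IntermediateField Polynomial Pool.Agent.W602.GT

namespace Run7.h366.RC

section

variable {k K K' : Type} [Field k] [Field K] [Field K'] [Algebra k K] [Algebra k K']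

theorem sum_der' {ι : Type} (s : Finset ι) (c : ι → K) (D : ι → Derivation k K K) (f : K) :
    (∑ i ∈ s, c i • D i) f = ∑ i ∈ s, c i * D i f := by
  classical
  induction s using Finset.induction_on with
  | empty => simp
  | insert i s hi ih =>
    rw [Finset.sum_insert hi, Finset.sum_insert hi, Derivation.add_apply, ih,
      Derivation.smul_apply, smul_eq_mul]

/-- transport of derivations -/
def conjDer (e : K ≃ₐ[k] K') (D : Derivation k K K) : Derivation k K' K' where
  toFun z := e (D (e.symm z))
  map_add' a b := by rw [map_add, map_add, map_add]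
  map_smul' c a := by rw [map_smul, Derivation.map_smul, map_smul, RingHom.id_apply]
  map_one_eq_zero' := by
    change e (D (e.symm 1)) = 0
    rw [map_one, D.map_one_eq_zero, map_zero]
  leibniz' a b := by
    change e (D (e.symm (a * b))) = a • e (D (e.symm b)) + b • e (D (e.symm a))
    rw [map_mul, D.leibniz, map_add, smul_eq_mul, smul_eq_mul, map_mul, map_mul,
      AlgEquiv.apply_symm_apply, AlgEquiv.apply_symm_apply, smul_eq_mul, smul_eq_mul]

@[simp] theorem conjDer_apply (e : K ≃ₐ[k] K') (D : Derivation k K K) (z : K') :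
    conjDer e D z = e (D (e.symm z)) := rfl

/-- transport of places -/
def conjPlace (e : K ≃ₐ[k] K') (P : Place k K) : Place k K' where
  ord z := P.ord (e.symm z)
  ord_zero := by rw [map_zero, P.ord_zero]
  ord_mul {f g} hf hg := by
    rw [map_mul]
    exact P.ord_mul (by simpa using hf) (by simpa using hg)
  ord_add {f g} hf hg hfg := by
    rw [map_add]
    exact P.ord_add (by simpa using hf) (by simpa using hg) (by
      rw [← map_add]
      exact (map_ne_zero_iff _ e.symm.injective).2 hfg)
  ord_const {c} hc := by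
    rw [AlgEquiv.commutes]
    exact P.ord_const hc
  surj := by
    obtain ⟨t, ht0, ht⟩ := P.surj
    exact ⟨e t, by simpa using ht0, by rw [AlgEquiv.symm_apply_apply]; exact ht⟩

theorem conjPlace_reg (e : K ≃ₐ[k] K') (P : Place k K) (z : K') :
    (conjPlace e P).Reg z ↔ P.Reg (e.symm z) := by
  change (z = 0 ∨ 0 ≤ P.ord (e.symm z)) ↔ (e.symm z = 0 ∨ 0 ≤ P.ord (e.symm z))
  rw [map_eq_zero_iff _ e.symm.injective]

/-- the canonical forms vanish on isomorphic fields -/
theorem zero_congr (e : K ≃ₐ[k] K') {w : ℕ}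
    (h : ∀ ω : (Fin w → Derivation k K K) → K, IsPluri 1 ω →
      (∀ P : Place k K, Divisorial w P → RegAt P ω) → ∀ D, ω D = 0)
    (ω : (Fin w → Derivation k K' K') → K') (hω : IsPluri 1 ω)
    (hreg : ∀ P : Place k K', Divisorial w P → RegAt P ω) : ∀ D, ω D = 0 := by
  intro D
  have h0 := h (fun D => e.symm (ω fun i => conjDer e (D i))) (by
    intro A D
    beta_reduce
    have h1 : (fun i => conjDer e (∑ l, A i l • D l)) =
        fun i => ∑ l, (A.map e) i l • conjDer e (D l) := by
      funext i
      ext z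
      rw [conjDer_apply, sum_der', sum_der', map_sum]
      refine Finset.sum_congr rfl fun l _ => ?_
      rw [map_mul]
      rfl
    rw [h1, hω, map_mul, map_pow]
    congr 2
    have h2 : (A.map e).det = e A.det := by
      rw [AlgEquiv.map_det]
      rfl
    rw [h2, AlgEquiv.symm_apply_apply]) (by
    intro P hP D hD
    have hP' : Divisorial w (conjPlace e P) := by
      obtain ⟨u, hu⟩ := hP
      refine ⟨fun i => e (u i), fun p hp => ?_⟩
      have h1 : MvPolynomial.aeval (fun i => e (u i)) p = e (MvPolynomial.aeval u p) := by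
        have h2 := MvPolynomial.comp_aeval_apply (f := u) (e : K →ₐ[k] K') p
        exact h2.symm
      obtain ⟨h3, h4⟩ := hu p hp
      rw [h1]
      refine ⟨by simpa using h3, ?_⟩
      change P.ord (e.symm (e _)) = 0
      rw [AlgEquiv.symm_apply_apply]
      exact h4
    have h1 := hreg (conjPlace e P) hP' (fun i => conjDer e (D i)) (by
      intro i f hf
      rw [conjPlace_reg] at hf ⊢
      rw [conjDer_apply, AlgEquiv.symm_apply_apply]
      exact hD i _ hf)
    exact (conjPlace_reg e P _).1 h1) (fun i => conjDer e.symm (D i))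
  have h2 : (fun i => conjDer e (conjDer e.symm (D i))) = D := by
    funext i
    ext z
    simp
  beta_reduce at h0
  rw [h2] at h0
  exact (map_eq_zero_iff _ e.symm.injective).1 h0

end

section

variable {k M : Type} [Field k] [CharZero k] [Field M] [Algebra k M]

/-- The field `M(t)` as an extension of the subfield `M`. -/
theorem ratFunc_ruled' : ∃ M' : IntermediateField k (RatFunc M),
    Transcendental M' (RatFunc.X : RatFunc M) ∧
      IntermediateField.adjoin M' {(RatFunc.X : RatFunc M)} = ⊤ ∧
      ∀ z ∈ M', z ∈ Set.range (algebraMap M (RatFunc M)) := by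
  let φ : M →ₐ[k] RatFunc M := IsScalarTower.toAlgHom k M (RatFunc M)
  let M' : IntermediateField k (RatFunc M) := φ.fieldRange
  let _ : Algebra M M' := (φ.rangeRestrict : M →ₐ[k] φ.range).toRingHom.toAlgebra
  have t1 : IsScalarTower M M' (RatFunc M) := IsScalarTower.of_algebraMap_eq fun c => rfl
  have hsurj : Function.Surjective (algebraMap M M') := φ.rangeRestrict_surjective
  refine ⟨M', ?_, ?_, fun z hz => ?_⟩
  · intro h
    apply RatFunc.transcendental_X (K := M)
    have h1 : Algebra.IsAlgebraic M M' := ⟨fun z => by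
      obtain ⟨y, rfl⟩ := hsurj z
      exact isAlgebraic_algebraMap y⟩
    exact h.restrictScalars M
  · rw [eq_top_iff]
    intro z _
    have h1 : z ∈ IntermediateField.adjoin M {(RatFunc.X : RatFunc M)} := by
      rw [RatFunc.adjoin_X]; trivial
    have h2 : IntermediateField.adjoin M {(RatFunc.X : RatFunc M)} ≤
        (IntermediateField.adjoin M' {(RatFunc.X : RatFunc M)}).restrictScalars M := by
      rw [adjoin_simple_le_iff, mem_restrictScalars]
      exact mem_adjoin_simple_self M' _
    exact h2 h1
  · obtain ⟨y, hy⟩ := hz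
    exact ⟨y, hy⟩

/-- the constants of the derivation along a ruling -/
theorem mem_of_der_zero {R : Type} [Field R] [Algebra k R] {M : IntermediateField k R} {t : R}
    (ht : Transcendental M t) (htop : IntermediateField.adjoin M {t} = ⊤) {D : Derivation k R R}
    (hDt : D t = 1) (hDM : ∀ c : M, D (c : R) = 0) {g : R} (hg : D g = 0) : g ∈ M := by
  classical
  obtain ⟨-, -, -, hfr⟩ := Pool.Agent.W721.PG.RULED.places (k := k) ht htop
  obtain ⟨p, q, hq, hpq⟩ := hfr g
  by_contra hgM
  -- `t` is transcendental over the constants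
  have hmem : ∀ x : R, x ∈ consts D ↔ D x = 0 := fun x => Iff.rfl
  let ι : M →+* consts D :=
    { toFun := fun c : M => ⟨(c : R), (hmem _).2 (hDM c)⟩
      map_one' := Subtype.ext rfl
      map_zero' := Subtype.ext rfl
      map_mul' := fun _ _ => Subtype.ext rfl
      map_add' := fun _ _ => Subtype.ext rfl }
  have hι : (algebraMap (consts D) R).comp ι = algebraMap M R := rfl
  have hq' : aeval t (q.map ι) = aeval t q := by
    rw [Polynomial.aeval_def, Polynomial.eval₂_map, hι, Polynomial.aeval_def]
  have hp' : aeval t (p.map ι) = aeval t p := by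
    rw [Polynomial.aeval_def, Polynomial.eval₂_map, hι, Polynomial.aeval_def]
  have htr : Transcendental (consts D) t := by
    intro h
    have h2 := der_of_alg D h
    rw [hDt] at h2
    exact one_ne_zero h2
  let g' : consts D := ⟨g, (hmem g).2 hg⟩
  have h1 : Polynomial.C g' * q.map ι = p.map ι := by
    apply (transcendental_iff_injective.1 htr)
    rw [map_mul, hq', hp', Polynomial.aeval_C]
    exact hpq
  obtain ⟨i, hi⟩ : ∃ i, q.coeff i ≠ 0 := by
    by_contra hcon
    push Not at hcon
    exact hq (Polynomial.ext hcon)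
  have h2 := congrArg (fun P : (consts D)[X] => ((P.coeff i : consts D) : R)) h1
  simp only [Polynomial.coeff_C_mul, Polynomial.coeff_map] at h2
  have h3 : g * (q.coeff i : R) = (p.coeff i : R) := h2
  have h4 : (q.coeff i : R) ≠ 0 := fun h => hi (Subtype.ext h)
  have h5 : g = (p.coeff i : R) / (q.coeff i : R) := by
    rw [eq_div_iff h4]
    exact h3
  rw [h5] at hgM
  exact hgM (div_mem (p.coeff i).2 (q.coeff i).2)

end

open Pool.Agent.W619.PQ Pool.Agent.W619.PL Pool.Agent.W619.TW Pool.Agent.W603.LV
  Pool.Agent.W619.Y Pool.Agent.W721.PG.RULED in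
/-- **Uniruled varieties have geometric genus zero**; the dimension of the family of rational curves
is arbitrary. -/
theorem genusZero_of_uniruled {L : Type} [Field L] [Algebra ℂ L] [Algebra.EssFiniteType ℂ L] {n : ℕ}
    (hL : Algebra.trdeg ℂ L = n) (hU : Pool.Agent.W602.GT.Uniruled ℂ L) :
    Pool.Agent.R882.Over.GenusZero L n := by
  classical
  obtain ⟨M, _, _, hM, φ, z, hz⟩ := hU
  have hFF : IsFF M (RatFunc M) := by
    refine IsFF.of_finite (f := (RatFunc.X : RatFunc M)) RatFunc.transcendental_X ?_
    rw [RatFunc.adjoin_X]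
    exact Module.Finite.of_surjective (Algebra.linearMap (⊤ : IntermediateField M (RatFunc M))
      (RatFunc M)) fun z => ⟨⟨z, trivial⟩, rfl⟩
  have hess0 : Algebra.EssFiniteType M (RatFunc M) := hFF.ess
  have hessR : Algebra.EssFiniteType ℂ (RatFunc M) := Algebra.EssFiniteType.comp ℂ M (RatFunc M)
  obtain ⟨N, hN⟩ := Cardinal.lt_aleph0.1 (trdeg_lt_aleph0 ℂ (RatFunc M))
  let E : IntermediateField ℂ (RatFunc M) := φ.fieldRange
  let e : L ≃ₐ[ℂ] E := AlgEquiv.ofInjectiveField φ
  have hE : Algebra.trdeg ℂ E = n := by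
    rw [← hL]
    exact e.symm.trdeg_eq
  have hessE : Algebra.EssFiniteType ℂ E := (Algebra.EssFiniteType.iff_of_algEquiv e).1 inferInstance
  refine zero_congr e.symm fun η hη hreg D0 => ?_
  by_contra h0
  obtain ⟨M0, ht, htop, hM0⟩ := ratFunc_ruled' (k := ℂ) (M := M)
  obtain ⟨-, EE, i0, -, -, -, -, hE0M, hEt, -⟩ := Pool.Agent.R882.UA.frame (k := ℂ) hN ht htop
  obtain ⟨D, hD⟩ : ∃ D : Derivation ℂ (RatFunc M) (RatFunc M), D = EE i0 := ⟨_, rfl⟩
  rw [← hD] at hEt hE0M
  obtain ⟨y, F, hy, hF⟩ := Pool.Agent.Y172.exists_crd (k := ℂ) (K := E) hE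
  have ha : η F ≠ 0 := by
    intro h
    apply h0
    have h1 := Pool.Agent.Y172.pluri_coord hy hF (m := 1) (ω := η) hη D0
    rw [h1, h, mul_zero]
  have haR : ((η F : E) : RatFunc M) ≠ 0 := fun h => ha (Subtype.ext h)
  have hyN : AlgebraicIndependent ℂ (fun i => (y i : RatFunc M)) :=
    hy.1.map' (f := E.val) E.val.toRingHom.injective
  have hgood : ∀ w : Place ℂ (RatFunc M), IsDivisorial w N →
      YGood n 1 w (fun i => (y i : RatFunc M)) ((η F : E) : RatFunc M) := fun w hw =>
    pYLOC ℂ (RatFunc M) E n N 1 hE hN (fun y hy => fin_over y hy) η hη hreg y F hy hF w hw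
  have hDy := Pool.Agent.R882.UA.ruled_ygood (k := ℂ) hN ht htop hyN haR le_rfl hgood hEt hE0M
  have hDE : ∀ c : E, D (c : RatFunc M) = 0 := fun c => der_zero (D.compAlgebraMap E) y hy hDy c
  have h1 : φ z ∈ M0 := mem_of_der_zero ht htop hEt hE0M (hDE ⟨φ z, ⟨z, rfl⟩⟩)
  exact hz (hM0 _ h1)

/-- **Rationally connected varieties of positive dimension have geometric genus zero.** -/
theorem genusZero_of_rc {m n : ℕ} (hn : 1 ≤ n) {L : Type} [Field L] [Algebra ℂ L]
    (hL : Algebra.trdeg ℂ L = n) {x : Fin (m + 1) → L} (hx : x ≠ 0) (hgen : coords ℂ x = ⊤)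
    (h : Pool.Agent.TH710.WH.RationallyConnected ℂ x) : Pool.Agent.R882.Over.GenusZero L n := by
  have hess : Algebra.EssFiniteType ℂ L := Pool.Agent.W602.GT.essFinite hgen
  refine genusZero_of_uniruled hL (uniruled_of_rc hx hgen (fun halg => ?_) h)
  have h1 : Algebra.trdeg ℂ L = 0 := trdeg_eq_zero_iff.2 halg
  rw [hL] at h1
  have h2 : n = 0 := by exact_mod_cast h1
  omega

end Run7.h366.RC
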