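import Pool.Agent.Run7.h260.TW.Fin

/-!
# Varieties covered by unirational varieties of dimension `r`
-/

set_option autoImplicit false
set_option linter.overlappingInstances false
set_option linter.unusedSectionVars false

open FF Pool.Agent.W602.GT MvPolynomial
open Pool.Agent.W619.PQ (IsUniruled)
open Pool.Agent.W619.TW (IsUnirational)
open Pool.Agent.R882.Over (GenusZero)

namespace Run7.h366.CV

/-- The varieties with the function field `L`, of dimension `n`, are covered by a family of
unirational varieties of dimension `r` (`r = 1`: uniruled; `r = n`: unirational): there is a dominant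
rational map of finite degree from `T × ℙ^r`, `M` the function field of `T`. -/
def IsCovered (L : Type) [Field L] [Algebra ℂ L] (n r : ℕ) : Prop :=
  ∃ (M : Type) (_ : Field M) (_ : Algebra ℂ M), Algebra.EssFiniteType ℂ M ∧
    Algebra.trdeg ℂ M + r = n ∧ Nonempty (L →ₐ[ℂ] FractionRing (MvPolynomial (Fin r) M))

theorem descends_covered (n r : ℕ) :
    Pool.Agent.R882.HT.Descends (fun K _ _ => IsCovered K n r) := by
  intro K _ _ L _ _ _ _ _ h
  obtain ⟨M, i1, i2, h1, h2, ⟨φ⟩⟩ := h
  exact ⟨M, i1, i2, h1, h2, ⟨φ.comp (IsScalarTower.toAlgHom ℂ L K)⟩⟩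

theorem trdeg_frac (k : Type) [Field k] (m : ℕ) :
    Algebra.trdeg k (FractionRing (MvPolynomial (Fin m) k)) = m := by
  have h1 : Algebra.trdeg k (MvPolynomial (Fin m) k) +
      Algebra.trdeg (MvPolynomial (Fin m) k) (FractionRing (MvPolynomial (Fin m) k)) =
      Algebra.trdeg k (FractionRing (MvPolynomial (Fin m) k)) := trdeg_add_eq _ _
  have h2 : Algebra.IsAlgebraic (MvPolynomial (Fin m) k) (FractionRing (MvPolynomial (Fin m) k)) :=
    IsLocalization.isAlgebraic _ (nonZeroDivisors (MvPolynomial (Fin m) k))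
  have h3 : Algebra.trdeg (MvPolynomial (Fin m) k) (FractionRing (MvPolynomial (Fin m) k)) = 0 :=
    trdeg_eq_zero
  rw [← h1, h3, add_zero, MvPolynomial.trdeg_of_isDomain]
  simp

/-- Unirational varieties are covered by unirational varieties of all dimensions `r ≤ n`. -/
theorem covered_of_unirational {L : Type} [Field L] [Algebra ℂ L] {n r : ℕ} (hr : r ≤ n)
    (h : IsUnirational ℂ L n) : IsCovered L n r := by
  classical
  obtain ⟨φ⟩ := h
  let M := FractionRing (MvPolynomial (Fin (n - r)) ℂ)
  have hM : Algebra.trdeg ℂ M = ((n - r : ℕ) : Cardinal) := trdeg_frac ℂ (n - r)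
  have hess : Algebra.EssFiniteType ℂ M :=
    Algebra.EssFiniteType.comp ℂ (MvPolynomial (Fin (n - r)) ℂ) M
  let e : Fin n ≃ Fin r ⊕ Fin (n - r) :=
    (finCongr (by omega : n = r + (n - r))).trans finSumFinEquiv.symm
  let f : MvPolynomial (Fin n) ℂ →ₐ[ℂ] FractionRing (MvPolynomial (Fin r) M) :=
    (IsScalarTower.toAlgHom ℂ (MvPolynomial (Fin r) M) _).comp
      ((MvPolynomial.mapAlgHom (IsScalarTower.toAlgHom ℂ (MvPolynomial (Fin (n - r)) ℂ) M)).comp
        ((sumAlgEquiv ℂ (Fin r) (Fin (n - r))).toAlgHom.comp (renameEquiv ℂ e).toAlgHom))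
  have hf : Function.Injective f := by
    refine (IsFractionRing.injective (MvPolynomial (Fin r) M)
      (FractionRing (MvPolynomial (Fin r) M))).comp ?_
    refine (MvPolynomial.map_injective _ (IsFractionRing.injective
      (MvPolynomial (Fin (n - r)) ℂ) M)).comp ?_
    exact (sumAlgEquiv ℂ (Fin r) (Fin (n - r))).injective.comp (renameEquiv ℂ e).injective
  refine ⟨M, inferInstance, inferInstance, hess, ?_,
    ⟨(IsFractionRing.liftAlgHom (K := FractionRing (MvPolynomial (Fin n) ℂ)) hf).comp φ⟩⟩
  rw [hM, ← Nat.cast_add]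
  congr 1
  omega

/-- Varieties which are covered by unirational varieties of positive dimension are uniruled. -/
theorem uniruled_of_covered {L : Type} [Field L] [Algebra ℂ L] {n r : ℕ} (hr : 1 ≤ r)
    (h : IsCovered L n r) : IsUniruled ℂ L n := by
  classical
  obtain ⟨M, _, _, hess, hn, ⟨ψ⟩⟩ := h
  obtain ⟨m, rfl⟩ : ∃ m, r = m + 1 := ⟨r - 1, by omega⟩
  let M' := FractionRing (MvPolynomial (Fin m) M)
  have hM' : Algebra.trdeg M M' = (m : Cardinal) := trdeg_frac M m
  have hess' : Algebra.EssFiniteType ℂ M' := by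
    have h1 : Algebra.EssFiniteType M M' :=
      Algebra.EssFiniteType.comp M (MvPolynomial (Fin m) M) M'
    exact Algebra.EssFiniteType.comp ℂ M M'
  let f : MvPolynomial (Fin (m + 1)) M →ₐ[M] RatFunc M' :=
    (IsScalarTower.toAlgHom M (Polynomial M') (RatFunc M')).comp
      ((Polynomial.mapAlgHom (IsScalarTower.toAlgHom M (MvPolynomial (Fin m) M) M')).comp
        (finSuccEquiv M m).toAlgHom)
  have hf : Function.Injective f := by
    refine (IsFractionRing.injective (Polynomial M') (RatFunc M')).comp ?_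
    refine (Polynomial.map_injective _ (IsFractionRing.injective
      (MvPolynomial (Fin m) M) M')).comp ?_
    exact (finSuccEquiv M m).injective
  refine ⟨M', inferInstance, inferInstance, hess', ?_,
    ⟨((IsFractionRing.liftAlgHom (K := FractionRing (MvPolynomial (Fin (m + 1)) M))
      hf).restrictScalars ℂ).comp ψ⟩⟩
  have h1 : Algebra.trdeg ℂ M + Algebra.trdeg M M' = Algebra.trdeg ℂ M' := trdeg_add_eq _ _
  rw [← h1, hM', add_assoc]
  exact_mod_cast hn

theorem goodBase_covered {n r : ℕ} (hr : r ≤ n) :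
    Pool.Agent.Run7.h260.TW.GoodBase n (fun K _ _ => IsCovered K n r) :=
  ⟨descends_covered n r, fun _ _ _ h => covered_of_unirational hr h⟩

/-- Images of towers over varieties which are covered by unirational varieties of dimension `r`. -/
theorem genus_covered {n r : ℕ} (hr1 : 1 ≤ r) (hr : r ≤ n) {K : Type} [Field K] [Algebra ℂ K]
    [Algebra.EssFiniteType ℂ K] (hK : Algebra.trdeg ℂ K = n) (L : Type) [Field L] [Algebra ℂ L]
    [Algebra L K] [IsScalarTower ℂ L K] [FiniteDimensional L K]
    (h : Pool.Agent.Run7.h260.TW.Tower 2 n (fun E _ _ => IsCovered E n r) K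
      (Module.finrank L K)) :
    [GenusZero L n, ¬ KodGe ℂ L n (fun _ => False) 0, ¬ Psef ℂ L n (fun _ => False),
      IsUniruled ℂ L n, IsCovered L n r].TFAE := by
  have hess : Algebra.EssFiniteType ℂ L := Pool.Agent.TH466.QG.ess_below (K := K)
  have hL := Pool.Agent.Y184.NT.trdeg_below (L := L) (K := K) hK
  have h1 := (Pool.Agent.Run7.h260.TW.tower_aux (by omega) (goodBase_covered hr) h inferInstance
    hK L).1 le_rfl le_rfl
  have h2 := Pool.Agent.Run7.h260.TW.tfae_uniruled hL fun h => uniruled_of_covered hr1 (h1 h)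
  tfae_have 1 ↔ 2 := h2.out 0 1
  tfae_have 1 ↔ 3 := h2.out 0 2
  tfae_have 1 ↔ 4 := h2.out 0 3
  tfae_have 1 → 5 := h1
  tfae_have 5 → 4 := fun h => uniruled_of_covered hr1 h
  tfae_finish

end Run7.h366.CV
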