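import Pool.Agent.Run7.h366.EucDefs

open MeasureTheory Filter Topology Metric
open scoped ENNReal

namespace Run7.h366.Euc

variable {E : Type} [NormedAddCommGroup E] [InnerProductSpace ℝ E] [CompleteSpace E]

theorem app_norm (T : OG E) (x : E) : ‖T.app x‖ = ‖x‖ :=
  ContinuousLinearMap.norm_map_of_mem_unitary T.2 x

theorem app_add (T : OG E) (x y : E) : T.app (x + y) = T.app x + T.app y :=
  (T.1 : E →L[ℝ] E).map_add x y

theorem app_sub (T : OG E) (x y : E) : T.app (x - y) = T.app x - T.app y :=
  (T.1 : E →L[ℝ] E).map_sub x y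

theorem app_smul (T : OG E) (c : ℝ) (x : E) : T.app (c • x) = c • T.app x :=
  (T.1 : E →L[ℝ] E).map_smul c x

theorem app_mul (S T : OG E) (x : E) : (S * T).app x = S.app (T.app x) := rfl

theorem app_one (x : E) : (1 : OG E).app x = x := rfl

theorem app_cont : Continuous (fun p : OG E × E => p.1.app p.2) := by
  have h1 : Continuous (fun T : OG E => (T.1 : E →L[ℝ] E)) :=
    (continuous_subtype_val : Continuous (fun T : unitary (E →L[ℝ] E) => (T.1 : E →L[ℝ] E)))
  exact (h1.comp continuous_fst).clm_apply continuous_snd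

theorem app_cont_left (x : E) : Continuous (fun T : OG E => T.app x) :=
  app_cont.comp (continuous_id.prodMk continuous_const)

theorem app_cont_right (T : OG E) : Continuous (fun x : E => T.app x) :=
  app_cont.comp (continuous_const.prodMk continuous_id)

/-- transitivity on spheres -/
theorem exists_app (x y : E) (h : ‖x‖ = ‖y‖) : ∃ T : OG E, T.app x = y := by
  let L : E ≃ₗᵢ[ℝ] E := Submodule.reflection (ℝ ∙ (x - y))ᗮ
  refine ⟨(Unitary.linearIsometryEquiv.symm L : unitary (E →L[ℝ] E)), ?_⟩
  show ((Unitary.linearIsometryEquiv.symm L : unitary (E →L[ℝ] E)) : E →L[ℝ] E) x = y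
  rw [Unitary.coe_symm_linearIsometryEquiv_apply]
  exact Submodule.reflection_sub h

variable [FiniteDimensional ℝ E]

instance haarProb : IsProbabilityMeasure (haarO E) := by
  constructor
  have := Measure.haarMeasure_self (G := OG E) (K₀ := ⊤)
  simpa [haarO] using this

instance haarHaar : Measure.IsHaarMeasure (haarO E) := by
  unfold haarO
  infer_instance

/-- the stabiliser of a nonzero vector is a null set -/
theorem stab_null (hE : 2 ≤ Module.finrank ℝ E) (w : E) (hw : w ≠ 0) :
    haarO E {T : OG E | T.app w = w} = 0 := by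
  classical
  have hrank : 1 < Module.rank ℝ E := by
    rw [← Module.finrank_eq_rank]
    exact_mod_cast hE
  have hinf : (sphere (0 : E) ‖w‖).Infinite := by
    have hc : IsPreconnected (sphere (0 : E) ‖w‖) := isPreconnected_sphere hrank 0 ‖w‖
    refine hc.infinite_of_nontrivial ⟨w, by simp, -w, by simp, ?_⟩
    intro h
    apply hw
    have h2 : (2 : ℝ) • w = 0 := by
      rw [two_smul]
      nth_rewrite 2 [h]
      simp
    exact (smul_eq_zero.mp h2).resolve_left (by norm_num)
  have hinf' : Infinite (sphere (0 : E) ‖w‖) := hinf.to_subtype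
  let φ : ℕ ↪ sphere (0 : E) ‖w‖ := Infinite.natEmbedding _
  have hex : ∀ n, ∃ T : OG E, T.app w = (φ n : E) := fun n => exists_app w (φ n) (by
    have := (φ n).2
    simpa using this.symm)
  choose T hT using hex
  set S : Set (OG E) := {T : OG E | T.app w = w} with hS
  have hSm : MeasurableSet S := by
    have : IsClosed S := isClosed_eq (app_cont_left w) continuous_const
    exact this.measurableSet
  have hdisj : Pairwise (Function.onFun Disjoint (fun n => (fun U => (T n)⁻¹ * U) ⁻¹' S)) := by
    intro m n hmn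
    rw [Function.onFun, Set.disjoint_left]
    intro U h1 h2
    apply hmn
    apply φ.injective
    apply Subtype.ext
    have e1 : U.app w = (T m).app w := by
      have : ((T m)⁻¹ * U).app w = w := h1
      calc U.app w = ((T m) * ((T m)⁻¹ * U)).app w := by rw [mul_inv_cancel_left]
        _ = (T m).app (((T m)⁻¹ * U).app w) := rfl
        _ = (T m).app w := by rw [this]
    have e2 : U.app w = (T n).app w := by
      have : ((T n)⁻¹ * U).app w = w := h2
      calc U.app w = ((T n) * ((T n)⁻¹ * U)).app w := by rw [mul_inv_cancel_left]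
        _ = (T n).app (((T n)⁻¹ * U).app w) := rfl
        _ = (T n).app w := by rw [this]
    rw [← hT m, ← hT n, ← e1, ← e2]
  have hmeas : ∀ n, haarO E ((fun U => (T n)⁻¹ * U) ⁻¹' S) = haarO E S := fun n =>
    measure_preimage_mul _ _ _
  by_contra hne
  have hsum : ∑' n : ℕ, haarO E ((fun U => (T n)⁻¹ * U) ⁻¹' S) ≤ 1 := by
    rw [← measure_iUnion hdisj (fun n => (measurable_const_mul _) hSm)]
    exact prob_le_one
  simp only [hmeas] at hsum
  rw [ENNReal.tsum_const_eq_top_of_ne_zero hne] at hsum
  exact absurd hsum (by simp)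

/-- small balls around the base point are small in Haar measure -/
theorem small_ball (hE : 2 ≤ Module.finrank ℝ E) (w : E) (hw : w ≠ 0) (δ : ℝ≥0∞) (hδ : 0 < δ) :
    ∃ r : ℝ, 0 < r ∧ haarO E {T : OG E | ‖T.app w - w‖ < r} < δ := by
  have hm : ∀ r : ℝ, MeasurableSet {T : OG E | ‖T.app w - w‖ < r} := fun r =>
    (isOpen_lt ((app_cont_left w).sub continuous_const).norm continuous_const).measurableSet
  have hanti : Antitone (fun n : ℕ => {T : OG E | ‖T.app w - w‖ < 1 / ((n : ℝ) + 1)}) := by
    intro m n hmn T hT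
    have : (1 : ℝ) / ((n : ℝ) + 1) ≤ 1 / ((m : ℝ) + 1) := by
      apply one_div_le_one_div_of_le
      · positivity
      · have : (m : ℝ) ≤ n := by exact_mod_cast hmn
        linarith
    exact lt_of_lt_of_le hT this
  have hlim := tendsto_measure_iInter_atTop (μ := haarO E)
    (s := fun n : ℕ => {T : OG E | ‖T.app w - w‖ < 1 / ((n : ℝ) + 1)})
    (fun n => (hm _).nullMeasurableSet) hanti ⟨0, measure_ne_top _ _⟩
  have hint : (⋂ n : ℕ, {T : OG E | ‖T.app w - w‖ < 1 / ((n : ℝ) + 1)})
      = {T : OG E | T.app w = w} := by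
    ext T
    simp only [Set.mem_iInter, Set.mem_ofPred_eq]
    constructor
    · intro h
      have h0 : ‖T.app w - w‖ ≤ 0 := by
        refine le_of_forall_pos_lt_add fun ε hε => ?_
        obtain ⟨n, hn⟩ := exists_nat_one_div_lt hε
        have := h n
        linarith
      exact sub_eq_zero.mp (norm_le_zero_iff.mp h0)
    · intro h n
      rw [h, sub_self, norm_zero]
      positivity
  rw [hint, stab_null hE w hw] at hlim
  obtain ⟨n, hn⟩ := ((tendsto_order.mp hlim).2 δ hδ).exists
  exact ⟨1 / ((n : ℝ) + 1), by positivity, hn⟩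

theorem small_any (w u : E) (r : ℝ) :
    haarO E {T : OG E | ‖T.app w - u‖ < r / 2} ≤ haarO E {T : OG E | ‖T.app w - w‖ < r} := by
  by_cases h : ∃ T₀ : OG E, ‖T₀.app w - u‖ < r / 2
  · obtain ⟨T₀, hT₀⟩ := h
    have hsub : {T : OG E | ‖T.app w - u‖ < r / 2} ⊆
        (fun U => T₀⁻¹ * U) ⁻¹' {T : OG E | ‖T.app w - w‖ < r} := by
      intro T hT
      simp only [Set.mem_ofPred_eq, Set.mem_preimage] at hT ⊢
      have e : T₀.app ((T₀⁻¹ * T).app w - w) = T.app w - T₀.app w := by
        rw [app_sub]
        congr 1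
        rw [← app_mul, mul_inv_cancel_left]
      rw [← app_norm T₀, e]
      calc ‖T.app w - T₀.app w‖ = ‖(T.app w - u) - (T₀.app w - u)‖ := by congr 1; abel
        _ ≤ ‖T.app w - u‖ + ‖T₀.app w - u‖ := norm_sub_le _ _
        _ < r / 2 + r / 2 := add_lt_add hT hT₀
        _ = r := by ring
    refine (measure_mono hsub).trans ?_
    rw [measure_preimage_mul]
  · push Not at h
    have : {T : OG E | ‖T.app w - u‖ < r / 2} = ∅ := by
      ext T
      simp only [Set.mem_ofPred_eq, Set.mem_empty_iff_false, iff_false, not_lt]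
      exact h T
    rw [this]
    simp

end Run7.h366.Euc
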