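import Pool.Agent.Run7.h366.EucA

set_option linter.unusedSectionVars false
open MeasureTheory Filter Topology Metric
open scoped ENNReal

namespace Run7.h366.Euc

variable {E : Type} [NormedAddCommGroup E] [InnerProductSpace ℝ E] [CompleteSpace E]
  [FiniteDimensional ℝ E] [MeasurableSpace E] [BorelSpace E]

theorem count_mono (P : Finset E) {A B : Set E} (h : A ⊆ B) : count P A ≤ count P B := by
  unfold count
  refine lintegral_mono fun x => lintegral_mono fun T => ?_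
  refine Finset.prod_le_prod' fun v _ => ?_
  exact Set.indicator_le_indicator_of_subset h (fun _ => bot_le) _

/-- the count is at most a two-point count -/
theorem count_le_two (P : Finset E) (A : Set E) (hA : MeasurableSet A) (v₁ v₂ : E)
    (h1 : v₁ ∈ P) (h2 : v₂ ∈ P) (hne : v₁ ≠ v₂) :
    count P A ≤ ∫⁻ x : E, ∫⁻ T : OG E, A.indicator (fun _ => (1 : ℝ≥0∞)) x *
      A.indicator (fun _ => (1 : ℝ≥0∞)) (x + T.app (v₂ - v₁)) ∂(haarO E) := by
  classical
  have hm1 : Measurable (A.indicator (fun _ => (1 : ℝ≥0∞))) := measurable_one.indicator hA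
  have hstep : count P A ≤ ∫⁻ x : E, ∫⁻ T : OG E, A.indicator (fun _ => (1 : ℝ≥0∞)) (x + T.app v₁) *
      A.indicator (fun _ => (1 : ℝ≥0∞)) (x + T.app v₂) ∂(haarO E) := by
    unfold count
    refine lintegral_mono fun x => lintegral_mono fun T => ?_
    have hsub : ({v₁, v₂} : Finset E) ⊆ P := by
      intro v hv
      simp only [Finset.mem_insert, Finset.mem_singleton] at hv
      rcases hv with rfl | rfl <;> assumption
    have hle : ∏ v ∈ P, A.indicator (fun _ => (1 : ℝ≥0∞)) (x + T.app v)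
        ≤ ∏ v ∈ ({v₁, v₂} : Finset E), A.indicator (fun _ => (1 : ℝ≥0∞)) (x + T.app v) := by
      refine Finset.prod_le_prod_of_subset_of_le_one' hsub ?_
      intro v _ _
      exact Set.indicator_le_self' (fun _ _ => bot_le) _
    rwa [Finset.prod_pair hne] at hle
  refine hstep.trans (le_of_eq ?_)
  have hc1 : ∀ v : E, Measurable (fun p : E × OG E => p.1 + p.2.app v) := fun v =>
    (continuous_fst.add ((app_cont_left v).comp continuous_snd)).measurable
  have hsw1 := lintegral_lintegral_swap (μ := (volume : Measure E)) (ν := haarO E)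
    (f := fun x T => A.indicator (fun _ => (1 : ℝ≥0∞)) (x + T.app v₁) *
      A.indicator (fun _ => (1 : ℝ≥0∞)) (x + T.app v₂))
    ((hm1.comp (hc1 v₁)).mul (hm1.comp (hc1 v₂))).aemeasurable
  have hsw2 := lintegral_lintegral_swap (μ := (volume : Measure E)) (ν := haarO E)
    (f := fun x T => A.indicator (fun _ => (1 : ℝ≥0∞)) x *
      A.indicator (fun _ => (1 : ℝ≥0∞)) (x + T.app (v₂ - v₁)))
    ((hm1.comp measurable_fst).mul (hm1.comp (hc1 (v₂ - v₁)))).aemeasurable
  rw [hsw1, hsw2]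
  refine lintegral_congr fun T => ?_
  have := lintegral_add_right_eq_self (μ := (volume : Measure E))
    (fun x => A.indicator (fun _ => (1 : ℝ≥0∞)) x *
      A.indicator (fun _ => (1 : ℝ≥0∞)) (x + T.app (v₂ - v₁))) (T.app v₁)
  rw [← this]
  refine lintegral_congr fun x => ?_
  have e : x + T.app v₁ + T.app (v₂ - v₁) = x + T.app v₂ := by
    rw [app_sub]; abel
  rw [e]

/-- clusters -/
def clus (P : Finset E) (e : E) (L ρ : ℝ) (j : ℕ) : Set E :=
  ⋃ v ∈ P, ball (((j : ℝ) * L) • e + v) ρ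

def bigA (P : Finset E) (e : E) (L ρ : ℝ) (M : ℕ) : Set E :=
  ⋃ j ∈ Finset.range M, clus P e L ρ j

theorem clus_open (P : Finset E) (e : E) (L ρ : ℝ) (j : ℕ) : IsOpen (clus P e L ρ j) :=
  isOpen_biUnion fun _ _ => isOpen_ball

theorem bigA_open (P : Finset E) (e : E) (L ρ : ℝ) (M : ℕ) : IsOpen (bigA P e L ρ M) :=
  isOpen_biUnion fun _ _ => clus_open _ _ _ _ _

theorem mem_clus {P : Finset E} {e : E} {L ρ : ℝ} {j : ℕ} {x : E} :
    x ∈ clus P e L ρ j ↔ ∃ v ∈ P, ‖x - (((j : ℝ) * L) • e + v)‖ < ρ := by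
  simp [clus, dist_eq_norm]

theorem mem_bigA {P : Finset E} {e : E} {L ρ : ℝ} {M : ℕ} {x : E} :
    x ∈ bigA P e L ρ M ↔ ∃ j < M, x ∈ clus P e L ρ j := by
  simp [bigA]

/-- points of two clusters at distance less than `L - 2 R - 2 ρ` are in the same cluster -/
theorem same_clus {P : Finset E} {e : E} (he : ‖e‖ = 1) {L ρ R s : ℝ} (hR : ∀ v ∈ P, ‖v‖ ≤ R)
    (hL : s + 2 * ρ + 2 * R < L) {i j : ℕ} {x y : E}
    (hx : x ∈ clus P e L ρ i) (hy : y ∈ clus P e L ρ j) (hxy : ‖x - y‖ ≤ s) : i = j := by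
  obtain ⟨v, hv, hxv⟩ := mem_clus.mp hx
  obtain ⟨u, hu, hyu⟩ := mem_clus.mp hy
  by_contra hij
  have h1 : (1 : ℝ) ≤ |(i : ℝ) - j| := by
    have : (1 : ℤ) ≤ |(i : ℤ) - j| := by
      apply Int.one_le_abs
      intro h
      apply hij
      have : (i : ℤ) = j := by linarith
      exact_mod_cast this
    exact_mod_cast this
  have hρ : 0 < ρ := lt_of_le_of_lt (norm_nonneg _) hxv
  have hs : 0 ≤ s := (norm_nonneg _).trans hxy
  have hR0 : 0 ≤ R := (norm_nonneg _).trans (hR v hv)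
  have hL0 : 0 < L := by linarith
  have h2 : ‖(((i : ℝ) * L) • e - ((j : ℝ) * L) • e)‖ = |(i : ℝ) - j| * L := by
    rw [← sub_smul, norm_smul, he, mul_one, ← sub_mul, Real.norm_eq_abs, abs_mul, abs_of_pos hL0]
  have h3 : ((i : ℝ) * L) • e - ((j : ℝ) * L) • e
      = -(x - (((i : ℝ) * L) • e + v)) + (x - y) + (y - (((j : ℝ) * L) • e + u)) - v + u := by
    abel
  have h4 : ‖((i : ℝ) * L) • e - ((j : ℝ) * L) • e‖ < L := by
    rw [h3]
    calc ‖-(x - (((i : ℝ) * L) • e + v)) + (x - y) + (y - (((j : ℝ) * L) • e + u)) - v + u‖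
        ≤ ‖-(x - (((i : ℝ) * L) • e + v)) + (x - y) + (y - (((j : ℝ) * L) • e + u)) - v‖ + ‖u‖ :=
          norm_add_le _ _
      _ ≤ ‖-(x - (((i : ℝ) * L) • e + v)) + (x - y) + (y - (((j : ℝ) * L) • e + u))‖ + ‖v‖ + ‖u‖ :=
          by gcongr; exact norm_sub_le _ _
      _ ≤ ‖-(x - (((i : ℝ) * L) • e + v)) + (x - y)‖ + ‖(y - (((j : ℝ) * L) • e + u))‖ + ‖v‖ + ‖u‖ :=
          by gcongr; exact norm_add_le _ _
      _ ≤ ‖-(x - (((i : ℝ) * L) • e + v))‖ + ‖x - y‖ + ‖(y - (((j : ℝ) * L) • e + u))‖ + ‖v‖ + ‖u‖ :=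
          by gcongr; exact norm_add_le _ _
      _ = ‖(x - (((i : ℝ) * L) • e + v))‖ + ‖x - y‖ + ‖(y - (((j : ℝ) * L) • e + u))‖ + ‖v‖ + ‖u‖ :=
          by rw [norm_neg]
      _ < L := by
          have := hR v hv
          have := hR u hu
          linarith
  rw [h2] at h4
  nlinarith

end Run7.h366.Euc
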