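import Pool.Agent.Run7.h366.EucB

set_option linter.unusedSectionVars false
open MeasureTheory Filter Topology Metric
open scoped ENNReal

namespace Run7.h366.Euc

variable {E : Type} [NormedAddCommGroup E] [InnerProductSpace ℝ E] [CompleteSpace E]
  [FiniteDimensional ℝ E] [MeasurableSpace E] [BorelSpace E]

theorem clus_vol (P : Finset E) (e : E) (L ρ : ℝ) (j : ℕ) :
    volume (clus P e L ρ j) ≤ P.card * volume (ball (0 : E) ρ) := by
  unfold clus
  refine (measure_biUnion_finset_le _ _).trans ?_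
  simp only [Measure.addHaar_ball_center, Finset.sum_const, nsmul_eq_mul]
  exact le_rfl

theorem bigA_vol (P : Finset E) (e : E) (L ρ : ℝ) (M : ℕ) :
    volume (bigA P e L ρ M) ≤ M * (P.card * volume (ball (0 : E) ρ)) := by
  unfold bigA
  refine (measure_biUnion_finset_le _ _).trans ?_
  refine (Finset.sum_le_sum fun j _ => clus_vol P e L ρ j).trans ?_
  simp

/-- upper bound for the count -/
theorem count_bigA (P : Finset E) (e : E) (he : ‖e‖ = 1) (L ρ R : ℝ) (M : ℕ)
    (v₁ v₂ : E) (h1 : v₁ ∈ P) (h2 : v₂ ∈ P) (hne : v₁ ≠ v₂) (hR : ∀ v ∈ P, ‖v‖ ≤ R)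
    (hL : ‖v₂ - v₁‖ + 2 * ρ + 2 * R < L) :
    count P (bigA P e L ρ M) ≤ volume (bigA P e L ρ M) * ((P.card : ℝ≥0∞) * (P.card : ℝ≥0∞) *
      haarO E {T : OG E | ‖T.app (v₂ - v₁) - (v₂ - v₁)‖ < 4 * ρ}) := by
  classical
  set A := bigA P e L ρ M with hA
  set w := v₂ - v₁ with hw
  set κ := haarO E {T : OG E | ‖T.app w - w‖ < 4 * ρ} with hκ
  have hAm : MeasurableSet A := (bigA_open _ _ _ _ _).measurableSet
  refine (count_le_two P A hAm v₁ v₂ h1 h2 hne).trans ?_
  have hpt : ∀ x : E, ∫⁻ T : OG E, A.indicator (fun _ => (1 : ℝ≥0∞)) x *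
      A.indicator (fun _ => (1 : ℝ≥0∞)) (x + T.app w) ∂(haarO E)
      ≤ A.indicator (fun _ => ((P.card : ℝ≥0∞) * (P.card : ℝ≥0∞) * κ)) x := by
    intro x
    by_cases hx : x ∈ A
    · simp only [Set.indicator_of_mem hx, one_mul]
      have hmeas : Measurable (fun T : OG E => x + T.app w) :=
        (continuous_const.add (app_cont_left w)).measurable
      have e1 : ∫⁻ T : OG E, A.indicator (fun _ => (1 : ℝ≥0∞)) (x + T.app w) ∂(haarO E)
          = haarO E ((fun T : OG E => x + T.app w) ⁻¹' A) := by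
        rw [← lintegral_indicator_one (hmeas hAm)]
        rfl
      rw [e1]
      have hsub : ((fun T : OG E => x + T.app w) ⁻¹' A) ⊆
          ⋃ p ∈ P ×ˢ P, {T : OG E | ‖T.app w - (p.2 - p.1)‖ < 4 * ρ / 2} := by
        intro T hT
        obtain ⟨i, hi, hxi⟩ := mem_bigA.mp hx
        obtain ⟨j, hj, hyj⟩ := mem_bigA.mp (show x + T.app w ∈ bigA P e L ρ M from hT)
        have hij : i = j := same_clus he hR hL hxi hyj (by
          rw [show x - (x + T.app w) = -T.app w by abel, norm_neg, app_norm])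
        subst hij
        obtain ⟨v, hv, hxv⟩ := mem_clus.mp hxi
        obtain ⟨u, hu, hyu⟩ := mem_clus.mp hyj
        simp only [Set.mem_iUnion]
        refine ⟨(v, u), Finset.mem_product.mpr ⟨hv, hu⟩, ?_⟩
        show ‖T.app w - (u - v)‖ < 4 * ρ / 2
        have e2 : T.app w - (u - v) = (x + T.app w - (((i : ℝ) * L) • e + u))
            - (x - (((i : ℝ) * L) • e + v)) := by abel
        rw [e2]
        calc _ ≤ _ := norm_sub_le _ _
          _ < ρ + ρ := add_lt_add hyu hxv
          _ = 4 * ρ / 2 := by ring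
      refine (measure_mono hsub).trans ((measure_biUnion_finset_le _ _).trans ?_)
      refine (Finset.sum_le_sum fun p _ => small_any w (p.2 - p.1) (4 * ρ)).trans ?_
      rw [Finset.sum_const, Finset.card_product, nsmul_eq_mul]
      push_cast
      exact le_rfl
    · simp [Set.indicator_of_notMem hx]
  refine (lintegral_mono hpt).trans ?_
  rw [lintegral_indicator_const hAm, mul_comm]

/-- lower bound for the measure of a set which meets all the copies -/
theorem lower (P : Finset E) (e : E) (he : ‖e‖ = 1) (L ρ R : ℝ) (M : ℕ) (hR : ∀ v ∈ P, ‖v‖ ≤ R)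
    (hL : 2 * ρ + 2 * R < L) (X : Set E)
    (hav : Avoids (bigA P e L ρ M \ X) P) :
    M * volume (ball (0 : E) ρ) ≤ P.card * volume X := by
  classical
  have hstep : ∀ j < M, volume (ball (0 : E) ρ) ≤ P.card * volume.restrict X (clus P e L ρ j) := by
    intro j hj
    have hsub : ball (0 : E) ρ ⊆ ⋃ v ∈ P,
        (fun y => y + (((j : ℝ) * L) • e + v)) ⁻¹' (X ∩ ball (((j : ℝ) * L) • e + v) ρ) := by
      intro y hy
      have hcop := hav (((j : ℝ) * L) • e + y) 1
      rw [Set.not_subset] at hcop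
      obtain ⟨z, ⟨v, hv, rfl⟩, hz⟩ := hcop
      have hv' : v ∈ P := hv
      have hy' : ‖y‖ < ρ := by simpa using hy
      have e1 : ((j : ℝ) * L) • e + y + (1 : OG E).app v = y + (((j : ℝ) * L) • e + v) := by
        rw [app_one]; abel
      have hball : y + (((j : ℝ) * L) • e + v) ∈ ball (((j : ℝ) * L) • e + v) ρ := by
        rw [mem_ball_iff_norm, add_sub_cancel_right]; exact hy'
      have hA : y + (((j : ℝ) * L) • e + v) ∈ bigA P e L ρ M := by
        refine mem_bigA.mpr ⟨j, hj, ?_⟩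
        unfold clus
        simp only [Set.mem_iUnion]
        exact ⟨v, hv', hball⟩
      simp only [Set.mem_iUnion]
      refine ⟨v, hv', ?_, hball⟩
      by_contra hnX
      apply hz
      show ((j : ℝ) * L) • e + y + (1 : OG E).app v ∈ bigA P e L ρ M \ X
      rw [e1]
      exact ⟨hA, hnX⟩
    refine (measure_mono hsub).trans ((measure_biUnion_finset_le _ _).trans ?_)
    have hle : ∀ v ∈ P, volume ((fun y => y + (((j : ℝ) * L) • e + v)) ⁻¹'
        (X ∩ ball (((j : ℝ) * L) • e + v) ρ)) ≤ volume.restrict X (clus P e L ρ j) := by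
      intro v hv
      rw [measure_preimage_add_right, Measure.restrict_apply (clus_open _ _ _ _ _).measurableSet,
        Set.inter_comm]
      refine measure_mono (Set.inter_subset_inter_left _ ?_)
      intro y hy
      unfold clus
      simp only [Set.mem_iUnion]
      exact ⟨v, hv, hy⟩
    refine (Finset.sum_le_sum hle).trans ?_
    rw [Finset.sum_const, nsmul_eq_mul]
  have hdisj : Set.PairwiseDisjoint (↑(Finset.range M)) (fun j => clus P e L ρ j) := by
    intro i _ j _ hij
    rw [Function.onFun, Set.disjoint_left]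
    intro x hxi hxj
    exact hij (same_clus (s := 0) he hR (by linarith) hxi hxj (by simp))
  have hsum : ∑ j ∈ Finset.range M, volume.restrict X (clus P e L ρ j) ≤ volume X := by
    rw [← measure_biUnion_finset hdisj (fun j _ => (clus_open _ _ _ _ _).measurableSet)]
    calc _ ≤ volume.restrict X Set.univ := measure_mono (Set.subset_univ _)
      _ = volume X := by rw [Measure.restrict_apply_univ]
  calc (M : ℝ≥0∞) * volume (ball (0 : E) ρ)
      = ∑ j ∈ Finset.range M, volume (ball (0 : E) ρ) := by simp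
    _ ≤ ∑ j ∈ Finset.range M, P.card * volume.restrict X (clus P e L ρ j) :=
        Finset.sum_le_sum fun j hj => hstep j (Finset.mem_range.mp hj)
    _ = P.card * ∑ j ∈ Finset.range M, volume.restrict X (clus P e L ρ j) := by
        rw [Finset.mul_sum]
    _ ≤ P.card * volume X := by gcongr

/-- **Negative part.** -/
theorem neg_part (hE : 2 ≤ Module.finrank ℝ E) (P : Finset E) (hP : 2 ≤ P.card) :
    ¬ HasRemoval P := by
  classical
  rintro ⟨f, hf0, hflim, hf⟩
  obtain ⟨v₁, h1, v₂, h2, hne⟩ := Finset.one_lt_card.mp (by omega : 1 < P.card)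
  have hw : v₂ - v₁ ≠ 0 := sub_ne_zero.mpr hne.symm
  have hnt : Nontrivial E := ⟨v₁, v₂, hne⟩
  obtain ⟨e, he⟩ := exists_norm_eq E (zero_le_one' ℝ)
  obtain ⟨R, hR⟩ : ∃ R : ℝ, ∀ v ∈ P, ‖v‖ ≤ R := by
    refine ⟨∑ v ∈ P, ‖v‖, fun v hv => ?_⟩
    exact Finset.single_le_sum (f := fun v => ‖v‖) (fun _ _ => norm_nonneg _) hv
  have hR0 : 0 ≤ R := (norm_nonneg _).trans (hR v₁ h1)
  set k : ℝ := (P.card : ℝ) with hk
  have hk2 : (2 : ℝ) ≤ k := by rw [hk]; exact_mod_cast hP
  have hkpos : 0 < k := by linarith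
  -- choose ε
  have hev := (tendsto_order.mp hflim).2 (1 / k) (by positivity)
  obtain ⟨ε, hε0, hfε⟩ : ∃ ε : ℝ, 0 < ε ∧ f ε < 1 / k := by
    have : ∃ᶠ ε in 𝓝[>] (0 : ℝ), 0 < ε ∧ f ε < 1 / k :=
      (hev.and self_mem_nhdsWithin).frequently.mono fun x hx => ⟨hx.2, hx.1⟩
    exact this.exists
  -- constants
  set b₀ : ℝ := (volume (ball (0 : E) 1)).toReal with hb₀
  have hb₀0 : 0 ≤ b₀ := ENNReal.toReal_nonneg
  set δ : ℝ := ε / ((1 + b₀) * k * k * k) with hδ
  have hδpos : 0 < δ := by positivity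
  obtain ⟨r, hr0, hr⟩ := small_ball hE (v₂ - v₁) hw (ENNReal.ofReal δ) (by simpa using hδpos)
  set ρ : ℝ := min (r / 4) 1 with hρ
  have hρ0 : 0 < ρ := by positivity
  have hρr : 4 * ρ ≤ r := by
    have := min_le_left (r / 4) 1
    rw [← hρ] at this
    linarith
  have hρ1 : ρ ≤ 1 := min_le_right _ _
  have hκ : haarO E {T : OG E | ‖T.app (v₂ - v₁) - (v₂ - v₁)‖ < 4 * ρ} ≤ ENNReal.ofReal δ := by
    refine (measure_mono ?_).trans hr.le
    intro T hT
    exact lt_of_lt_of_le hT hρr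
  set L : ℝ := ‖v₂ - v₁‖ + 2 * ρ + 2 * R + 1 with hL
  set b : ℝ := (volume (ball (0 : E) ρ)).toReal with hb
  have hbfin : volume (ball (0 : E) ρ) ≠ ⊤ := measure_ball_lt_top.ne
  have hbE : volume (ball (0 : E) ρ) = ENNReal.ofReal b := (ENNReal.ofReal_toReal hbfin).symm
  have hbpos : 0 < b := ENNReal.toReal_pos (measure_ball_pos volume _ hρ0).ne' hbfin
  have hbb : b ≤ b₀ := ENNReal.toReal_mono measure_ball_lt_top.ne
    (measure_mono (ball_subset_ball hρ1))
  set M : ℕ := ⌈1 / b⌉₊ with hM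
  have hM1 : 1 ≤ (M : ℝ) * b := by
    have : 1 / b ≤ M := Nat.le_ceil _
    calc (1 : ℝ) = 1 / b * b := by field_simp
      _ ≤ M * b := by gcongr
  have hM2 : (M : ℝ) * b ≤ 1 + b₀ := by
    have : (M : ℝ) < 1 / b + 1 := Nat.ceil_lt_add_one (by positivity)
    calc (M : ℝ) * b ≤ (1 / b + 1) * b := by gcongr
      _ = 1 + b := by field_simp
      _ ≤ 1 + b₀ := by linarith
  have hM0 : (0 : ℝ) ≤ (M : ℝ) := Nat.cast_nonneg M
  clear_value M b L ρ δ b₀ k
  have hcount : count P (bigA P e L ρ M) ≤ ENNReal.ofReal ε := by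
    refine (count_bigA P e he L ρ R M v₁ v₂ h1 h2 hne hR (by rw [hL]; linarith)).trans ?_
    have hv := bigA_vol P e L ρ M
    rw [hbE] at hv
    calc volume (bigA P e L ρ M) * ((P.card : ℝ≥0∞) * (P.card : ℝ≥0∞) *
        haarO E {T : OG E | ‖T.app (v₂ - v₁) - (v₂ - v₁)‖ < 4 * ρ})
        ≤ (M * (P.card * ENNReal.ofReal b)) * ((P.card : ℝ≥0∞) * (P.card : ℝ≥0∞) *
          ENNReal.ofReal δ) := by gcongr
      _ = ENNReal.ofReal ((M * (k * b)) * (k * k * δ)) := by
          have e1 : (M : ℝ≥0∞) = ENNReal.ofReal (M : ℝ) := (ENNReal.ofReal_natCast M).symm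
          have e2 : (P.card : ℝ≥0∞) = ENNReal.ofReal k := by
            rw [hk]; exact (ENNReal.ofReal_natCast P.card).symm
          rw [e1, e2, ← ENNReal.ofReal_mul (by positivity), ← ENNReal.ofReal_mul (by positivity),
            ← ENNReal.ofReal_mul (by positivity), ← ENNReal.ofReal_mul (by positivity),
            ← ENNReal.ofReal_mul (by positivity)]
      _ ≤ ENNReal.ofReal ε := by
          apply ENNReal.ofReal_le_ofReal
          calc (M * (k * b)) * (k * k * δ) = (M * b) * (k * k * k * δ) := by ring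
            _ ≤ (1 + b₀) * (k * k * k * δ) := by gcongr
            _ = ε := by rw [hδ]; field_simp
  obtain ⟨X, _, _, hXvol, hXav⟩ := hf ε hε0 (bigA P e L ρ M)
    (bigA_open _ _ _ _ _).measurableSet.nullMeasurableSet hcount
  have hlow := lower P e he L ρ R M hR (by rw [hL]; linarith [norm_nonneg (v₂ - v₁)]) X hXav
  have h3 : (M : ℝ≥0∞) * volume (ball (0 : E) ρ) ≤ P.card * ENNReal.ofReal (f ε) :=
    hlow.trans (by gcongr)
  have hfε0 := hf0 ε hε0
  rw [hbE, (ENNReal.ofReal_natCast M).symm, (ENNReal.ofReal_natCast P.card).symm, ← hk,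
    ← ENNReal.ofReal_mul hM0, ← ENNReal.ofReal_mul hkpos.le] at h3
  have h4 := (ENNReal.ofReal_le_ofReal_iff (mul_nonneg hkpos.le hfε0)).mp h3
  have h5 : k * f ε < 1 := by
    calc k * f ε < k * (1 / k) := by gcongr
      _ = 1 := by field_simp
  have h6 : (M : ℝ) * b ≤ k * f ε := h4
  linarith

end Run7.h366.Euc
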