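import Pool.Agent.Run7.h366.EucC

set_option linter.unusedSectionVars false
open MeasureTheory Filter Topology Metric
open scoped ENNReal

namespace Run7.h366.Euc

variable {E : Type} [NormedAddCommGroup E] [InnerProductSpace ℝ E] [CompleteSpace E]
  [FiniteDimensional ℝ E] [MeasurableSpace E] [BorelSpace E]

theorem count_singleton (v : E) (A : Set E) (hA : MeasurableSet A) :
    count {v} A = volume A := by
  have hm1 : Measurable (A.indicator (fun _ => (1 : ℝ≥0∞))) := measurable_one.indicator hA
  have hc1 : Measurable (fun p : E × OG E => p.1 + p.2.app v) :=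
    (continuous_fst.add ((app_cont_left v).comp continuous_snd)).measurable
  unfold count
  simp only [Finset.prod_singleton]
  have hsw := lintegral_lintegral_swap (μ := (volume : Measure E)) (ν := haarO E)
    (f := fun x T => A.indicator (fun _ => (1 : ℝ≥0∞)) (x + T.app v))
    (hm1.comp hc1).aemeasurable
  rw [hsw]
  have : ∀ T : OG E, ∫⁻ x : E, A.indicator (fun _ => (1 : ℝ≥0∞)) (x + T.app v) = volume A := by
    intro T
    rw [lintegral_add_right_eq_self (μ := (volume : Measure E))
      (fun x => A.indicator (fun _ => (1 : ℝ≥0∞)) x) (T.app v)]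
    rw [lintegral_indicator_const hA, one_mul]
  simp [this]

theorem pos_card_one (P : Finset E) (hP : P.card = 1) : HasRemoval P := by
  obtain ⟨v, rfl⟩ := Finset.card_eq_one.mp hP
  refine ⟨id, fun ε hε => hε.le, tendsto_id.mono_left nhdsWithin_le_nhds, ?_⟩
  intro ε hε A hA hcount
  obtain ⟨A', hsub, hA', hae⟩ := hA.exists_measurable_subset_ae_eq
  refine ⟨A, subset_rfl, hA, ?_, ?_⟩
  · rw [← measure_congr hae, ← count_singleton v A' hA']
    exact (count_mono _ hsub).trans hcount
  · intro x T h
    have : x + T.app v ∈ A \ A := h ⟨v, by simp, rfl⟩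
    simp at this

/-- in dimension one, every atom of the Haar measure has mass at least one half -/
theorem half_le (hE : Module.finrank ℝ E = 1) :
    ∃ T₁ : OG E, (∀ T : OG E, T = 1 ∨ T = T₁) ∧
      (1 : ℝ≥0∞) ≤ 2 * haarO E {(1 : OG E)} ∧ haarO E {T₁} = haarO E {(1 : OG E)} := by
  have hnt : Nontrivial E := Module.nontrivial_of_finrank_pos (R := ℝ) (by omega)
  obtain ⟨e, he⟩ := exists_norm_eq E (zero_le_one' ℝ)
  have he0 : e ≠ 0 := by
    intro h; rw [h, norm_zero] at he; exact zero_ne_one he
  have hspan : ∀ x : E, ∃ c : ℝ, c • e = x := (finrank_eq_one_iff_of_nonzero' e he0).mp hE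
  obtain ⟨T₁, hT₁⟩ := exists_app e (-e) (by simp)
  have hext : ∀ S T : OG E, S.app e = T.app e → S = T := by
    intro S T h
    apply Subtype.ext
    apply ContinuousLinearMap.ext
    intro x
    obtain ⟨c, rfl⟩ := hspan x
    have h1 := app_smul S c e
    have h2 := app_smul T c e
    have : S.app (c • e) = T.app (c • e) := by rw [h1, h2, h]
    exact this
  have hall : ∀ T : OG E, T = 1 ∨ T = T₁ := by
    intro T
    obtain ⟨c, hc⟩ := hspan (T.app e)
    have hn : ‖c • e‖ = 1 := by rw [hc, app_norm, he]
    rw [norm_smul, he, mul_one, Real.norm_eq_abs] at hn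
    rcases (abs_eq zero_le_one).mp hn with h | h
    · left
      apply hext
      rw [← hc, h, one_smul, app_one]
    · right
      apply hext
      rw [← hc, h, hT₁, neg_one_smul]
  have hinv : haarO E {T₁} = haarO E {(1 : OG E)} := by
    have h1 : (fun U => T₁⁻¹ * U) ⁻¹' {(1 : OG E)} = {T₁} := by
      ext U
      simp only [Set.mem_preimage, Set.mem_singleton_iff]
      constructor
      · intro h
        have := congrArg (fun V => T₁ * V) h
        simpa using this
      · rintro rfl
        simp
    rw [← h1, measure_preimage_mul]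
  refine ⟨T₁, hall, ?_, hinv⟩
  have huniv : (Set.univ : Set (OG E)) ⊆ {(1 : OG E)} ∪ {T₁} := by
    intro T _
    rcases hall T with h | h
    · left; exact h
    · right; exact h
  calc (1 : ℝ≥0∞) = haarO E Set.univ := (measure_univ).symm
    _ ≤ haarO E ({(1 : OG E)} ∪ {T₁}) := measure_mono huniv
    _ ≤ haarO E {(1 : OG E)} + haarO E {T₁} := measure_union_le _ _
    _ = 2 * haarO E {(1 : OG E)} := by rw [hinv, two_mul]

/-- base points of the copies with linear part `T` -/
def base (P : Finset E) (A : Set E) (T : OG E) : Set E := {x | ∀ v ∈ P, x + T.app v ∈ A}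

theorem base_meas (P : Finset E) (A : Set E) (hA : MeasurableSet A) (T : OG E) :
    MeasurableSet (base P A T) := by
  have : base P A T = ⋂ v ∈ P, (fun x => x + T.app v) ⁻¹' A := by
    ext x; simp [base]
  rw [this]
  exact Finset.measurableSet_biInter _ fun v _ => (measurable_add_const _) hA

theorem base_le (P : Finset E) (A : Set E) (hA : MeasurableSet A) (T : OG E) :
    haarO E {T} * volume (base P A T) ≤ count P A := by
  unfold count
  rw [← lintegral_indicator_const (base_meas P A hA T)]
  refine lintegral_mono fun x => ?_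
  by_cases hx : x ∈ base P A T
  · rw [Set.indicator_of_mem hx]
    calc haarO E {T} = ∫⁻ U in ({T} : Set (OG E)), (∏ v ∈ P,
          A.indicator (fun _ => (1 : ℝ≥0∞)) (x + U.app v)) ∂(haarO E) := by
          rw [lintegral_singleton]
          have : ∏ v ∈ P, A.indicator (fun _ => (1 : ℝ≥0∞)) (x + T.app v) = 1 :=
            Finset.prod_eq_one fun v hv => Set.indicator_of_mem (hx v hv) _
          rw [this, one_mul]
      _ ≤ _ := setLIntegral_le_lintegral _ _
  · rw [Set.indicator_of_notMem hx]
    exact bot_le

theorem pos_dim_one (hE : Module.finrank ℝ E = 1) (P : Finset E) (hP : P.Nonempty) :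
    HasRemoval P := by
  obtain ⟨T₁, hall, hhalf, hinv⟩ := half_le hE
  obtain ⟨v₀, hv₀⟩ := hP
  refine ⟨fun ε => 4 * ε, fun ε hε => by positivity, ?_, ?_⟩
  · have : Tendsto (fun ε : ℝ => 4 * ε) (𝓝 0) (𝓝 (4 * 0)) := tendsto_id.const_mul 4
    rw [mul_zero] at this
    exact this.mono_left nhdsWithin_le_nhds
  intro ε hε A hA hcount
  obtain ⟨A', hsub, hA', hae⟩ := hA.exists_measurable_subset_ae_eq
  have hcount' : count P A' ≤ ENNReal.ofReal ε := (count_mono _ hsub).trans hcount
  have hvol : ∀ T : OG E, volume (base P A' T) ≤ 2 * ENNReal.ofReal ε := by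
    intro T
    have h1 : haarO E {T} = haarO E {(1 : OG E)} := by
      rcases hall T with h | h
      · rw [h]
      · rw [h, hinv]
    calc volume (base P A' T) ≤ (2 * haarO E {T}) * volume (base P A' T) := by
          rw [h1]
          exact le_mul_of_one_le_left bot_le hhalf
      _ = 2 * (haarO E {T} * volume (base P A' T)) := by ring
      _ ≤ 2 * ENNReal.ofReal ε := by
          gcongr
          exact (base_le P A' hA' T).trans hcount'
  let D : OG E → Set E := fun T => (fun y => y + (-T.app v₀)) ⁻¹' (base P A' T)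
  have hDm : ∀ T, MeasurableSet (D T) := fun T => (measurable_add_const _) (base_meas P A' hA' T)
  have hDv : ∀ T, volume (D T) ≤ 2 * ENNReal.ofReal ε := by
    intro T
    show volume ((fun y => y + (-T.app v₀)) ⁻¹' (base P A' T)) ≤ _
    rw [measure_preimage_add_right]
    exact hvol T
  have hDsub : ∀ T, D T ⊆ A' := by
    intro T y hy
    have := (hy : y + (-T.app v₀) ∈ base P A' T) v₀ hv₀
    simpa using this
  refine ⟨(A \ A') ∪ (D 1 ∪ D T₁), ?_, ?_, ?_, ?_⟩
  · refine Set.union_subset Set.sdiff_subset (Set.union_subset ?_ ?_)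
    · exact (hDsub 1).trans hsub
    · exact (hDsub T₁).trans hsub
  · exact (hA.diff hA'.nullMeasurableSet).union
      (((hDm 1).union (hDm T₁)).nullMeasurableSet)
  · have hnull : volume (A \ A') = 0 := by
      have := ae_le_set.mp hae.symm.le
      exact this
    calc volume ((A \ A') ∪ (D 1 ∪ D T₁)) ≤ volume (A \ A') + (volume (D 1) + volume (D T₁)) :=
          (measure_union_le _ _).trans (by gcongr; exact measure_union_le _ _)
      _ ≤ 0 + (2 * ENNReal.ofReal ε + 2 * ENNReal.ofReal ε) := by
          gcongr
          · exact hnull.le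
          · exact hDv 1
          · exact hDv T₁
      _ = ENNReal.ofReal (4 * ε) := by
          rw [ENNReal.ofReal_mul (by norm_num)]
          rw [zero_add, ← add_mul]
          norm_num
  · intro x T hcop
    have hAll : ∀ v ∈ P, x + T.app v ∈ A' := by
      intro v hv
      have h1 : x + T.app v ∈ A \ ((A \ A') ∪ (D 1 ∪ D T₁)) := hcop ⟨v, hv, rfl⟩
      by_contra hn
      exact h1.2 (Or.inl ⟨h1.1, hn⟩)
    have hxb : x ∈ base P A' T := hAll
    have h2 : x + T.app v₀ ∈ A \ ((A \ A') ∪ (D 1 ∪ D T₁)) := hcop ⟨v₀, hv₀, rfl⟩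
    have h3 : x + T.app v₀ ∈ D T := by
      show x + T.app v₀ + (-T.app v₀) ∈ base P A' T
      simpa using hxb
    apply h2.2
    right
    rcases hall T with h | h
    · left; rw [← h]; exact h3
    · right; rw [← h]; exact h3

theorem main (P : Finset E) (hE : 1 ≤ Module.finrank ℝ E) (hP : P.Nonempty) :
    HasRemoval P ↔ (Module.finrank ℝ E = 1 ∨ P.card = 1) := by
  constructor
  · intro h
    by_contra hcon
    push Not at hcon
    have hc : 1 ≤ P.card := hP.card_pos
    exact neg_part (by omega) P (by omega) h
  · rintro (h | h)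
    · exact pos_dim_one h P hP
    · exact pos_card_one P h

end Run7.h366.Euc
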