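import Mathlib

/-!
Definitions for the Euclidean analogue of the removal property of MP_f7e9f1_co.
-/

open MeasureTheory Filter Topology
open scoped ENNReal

namespace Run7.h366.Euc

section Defs

variable (E : Type) [NormedAddCommGroup E] [InnerProductSpace ℝ E] [CompleteSpace E]

/-- The orthogonal group `O(E)` of a real Hilbert space: the group of all continuous linear maps
`T : E → E` with `T* T = T T* = 1`, with the topology of the operator norm. -/
def OG : Type := unitary (E →L[ℝ] E)

noncomputable instance : Group (OG E) := inferInstanceAs (Group (unitary (E →L[ℝ] E)))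

noncomputable instance : TopologicalSpace (OG E) :=
  inferInstanceAs (TopologicalSpace (unitary (E →L[ℝ] E)))

instance : IsTopologicalGroup (OG E) :=
  inferInstanceAs (IsTopologicalGroup (unitary (E →L[ℝ] E)))

instance : T2Space (OG E) := inferInstanceAs (T2Space (unitary (E →L[ℝ] E)))

/-- The Borel sigma-algebra on `O(E)`. -/
noncomputable instance : MeasurableSpace (OG E) := borel _

instance : BorelSpace (OG E) := ⟨rfl⟩

instance [FiniteDimensional ℝ E] : CompactSpace (OG E) := by
  have h : IsCompact ((unitary (E →L[ℝ] E) : Submonoid (E →L[ℝ] E)) : Set (E →L[ℝ] E)) := by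
    have : ProperSpace (E →L[ℝ] E) := FiniteDimensional.proper_real _
    refine Metric.isCompact_of_isClosed_isBounded isClosed_unitary ?_
    refine (Metric.isBounded_closedBall (x := (0 : E →L[ℝ] E)) (r := 1)).subset ?_
    intro u hu
    rw [mem_closedBall_zero_iff]
    refine ContinuousLinearMap.opNorm_le_bound _ zero_le_one fun x => ?_
    rw [one_mul]
    exact (ContinuousLinearMap.norm_map_of_mem_unitary hu x).le
  exact isCompact_iff_compactSpace.mp h

instance [FiniteDimensional ℝ E] : SecondCountableTopology (OG E) := by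
  have : ProperSpace (E →L[ℝ] E) := FiniteDimensional.proper_real _
  have : SecondCountableTopology (E →L[ℝ] E) := inferInstance
  exact inferInstanceAs (SecondCountableTopology (unitary (E →L[ℝ] E)))

variable {E}

/-- The linear map given by an element of `O(E)`. -/
def OG.app (T : OG E) : E → E := (T.1 : E →L[ℝ] E)

variable (E)

/-- The normalised Haar measure on `O(E)`. -/
noncomputable def haarO [FiniteDimensional ℝ E] : Measure (OG E) := Measure.haarMeasure ⊤

variable {E}

/-- `I_P(A) = ∫_E ∫_{O(E)} ∏_{v ∈ P} 1_A (x + T v) dμ(T) dx`. -/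
noncomputable def count [FiniteDimensional ℝ E] [MeasurableSpace E] [BorelSpace E]
    (P : Finset E) (A : Set E) : ℝ≥0∞ :=
  ∫⁻ x : E, ∫⁻ T : OG E, ∏ v ∈ P, A.indicator (fun _ => (1 : ℝ≥0∞)) (x + T.app v) ∂(haarO E)

/-- `A` avoids `P`: no subset of `A` is congruent to `P`, that is, of the form `x + T P` with
`x ∈ E` and `T ∈ O(E)`. -/
def Avoids (A : Set E) (P : Finset E) : Prop :=
  ∀ (x : E) (T : OG E), ¬ ((fun v => x + T.app v) '' (P : Set E) ⊆ A)

/-- The removal property of a configuration `P ⊆ E`, for Lebesgue measure: there is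
`f : (0,∞) → [0,∞)` with `f ε → 0` as `ε → 0` such that every Lebesgue measurable `A ⊆ E` with
`I_P(A) ≤ ε` contains a measurable `X` of measure at most `f ε` for which `A \ X` avoids `P`. -/
def HasRemoval [FiniteDimensional ℝ E] [MeasurableSpace E] [BorelSpace E] (P : Finset E) : Prop :=
  ∃ f : ℝ → ℝ, (∀ ε, 0 < ε → 0 ≤ f ε) ∧ Tendsto f (𝓝[>] 0) (𝓝 0) ∧
    ∀ ε, 0 < ε → ∀ A : Set E, NullMeasurableSet A volume →
      count P A ≤ ENNReal.ofReal ε →
      ∃ X : Set E, X ⊆ A ∧ NullMeasurableSet X volume ∧
        volume X ≤ ENNReal.ofReal (f ε) ∧ Avoids (A \ X) P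

end Defs

end Run7.h366.Euc
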